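import Pool.Agent.H22.LG.Stm

set_option autoImplicit false

namespace H56.LG

open Pool.Agent.Y382.PAR H22.CM H22.LG Matrix

/-- the diagonal of an upper triangular matrix -/
def dg (n : ℕ) (F : Type) [Field F] [Fintype F] [DecidableEq F] : P n n F →* (Fin n → F) where
  toFun g := fun i => g.1.1 i i
  map_one' := by
    funext i
    show (1 : Matrix (Fin n) (Fin n) F) i i = 1
    exact Matrix.one_apply_eq i
  map_mul' g h := by
    funext i
    show (g.1.1 * h.1.1) i i = g.1.1 i i * h.1.1 i i
    rw [Matrix.mul_apply]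
    refine Finset.sum_eq_single i ?_ ?_
    · intro l _ hl
      rcases lt_or_gt_of_ne hl with h1 | h1
      · rw [mem_P.1 g.2 i l l.2 h1, zero_mul]
      · rw [mem_P.1 h.2 l i i.2 h1, mul_zero]
    · intro h1
      exact absurd (Finset.mem_univ i) h1

theorem strict_nil {n : ℕ} {F : Type} [Field F] (N : Matrix (Fin n) (Fin n) F)
    (h : ∀ i j : Fin n, j ≤ i → N i j = 0) : N ^ n = 0 := by
  have h1 : N.IsUpperTriangular := fun i j hij => h i j (le_of_lt hij)
  have h2 := Matrix.charpoly_of_isUpperTriangular N h1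
  have h3 : N.charpoly = Polynomial.X ^ n := by
    rw [h2]
    have : ∀ i : Fin n, (Polynomial.X - Polynomial.C (N i i) : Polynomial F) = Polynomial.X :=
      fun i => by rw [h i i le_rfl, Polynomial.C_0, sub_zero]
    simp only [this, Finset.prod_const, Finset.card_univ, Fintype.card_fin]
  have h4 := Matrix.aeval_self_charpoly N
  rw [h3, map_pow, Polynomial.aeval_X] at h4
  exact h4

theorem t_SLB : S_SLB := by
  intro F _ _ _ n
  rcases Nat.eq_zero_or_pos n with hn | hn
  · subst hn
    haveI : Subsingleton (GL (Fin 0) F) := by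
      constructor
      intro a b
      apply Units.ext
      exact Subsingleton.elim _ _
    haveI : Subsingleton (P 0 0 F) := ⟨fun a b => Subtype.ext (Subsingleton.elim _ _)⟩
    infer_instance
  haveI : Nonempty (Fin n) := ⟨⟨0, hn⟩⟩
  obtain ⟨p, hp⟩ := CharP.exists F
  haveI : Fact p.Prime := ⟨CharP.char_is_prime F p⟩
  have hK : IsPGroup p (dg n F).toHomUnits.ker := by
    intro g
    refine ⟨n, ?_⟩
    apply Subtype.ext
    apply Subtype.ext
    apply Units.ext
    show (g.1.1.1 : Matrix (Fin n) (Fin n) F) ^ (p ^ n) = 1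
    obtain ⟨M, hM⟩ : ∃ M : Matrix (Fin n) (Fin n) F, M = g.1.1.1 := ⟨_, rfl⟩
    rw [← hM]
    have hd : ∀ i, M i i = 1 := by
      intro i
      have h1 := (MonoidHom.mem_ker).1 g.2
      have h2 := congrArg (fun u : (Fin n → F)ˣ => u.1 i) h1
      rw [hM]
      exact h2
    have hlow : ∀ i j : Fin n, j < i → M i j = 0 := by
      intro i j hij
      rw [hM]
      exact mem_P.1 g.1.2 i j j.2 hij
    have hN : (M - 1) ^ n = 0 := by
      apply strict_nil
      intro i j hij
      rcases lt_or_eq_of_le hij with h1 | h1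
      · rw [Matrix.sub_apply, hlow i j h1, Matrix.one_apply_ne (ne_of_gt h1), sub_zero]
      · subst h1
        rw [Matrix.sub_apply, hd, Matrix.one_apply_eq, sub_self]
    have h3 : (M - 1) ^ (p ^ n) = 0 := by
      have h4 : n ≤ p ^ n := (Nat.lt_pow_self (Fact.out : p.Prime).one_lt).le
      obtain ⟨k, hk⟩ := Nat.exists_eq_add_of_le h4
      rw [hk, pow_add, hN, zero_mul]
    have h5 : M = 1 + (M - 1) := by abel
    have h6 : Commute (1 : Matrix (Fin n) (Fin n) F) (M - 1) := Commute.one_left _
    rw [h5, add_pow_char_pow_of_commute (p := p) _ h6, one_pow, h3, add_zero]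
  haveI : Group.IsNilpotent (dg n F).toHomUnits.ker := hK.isNilpotent
  exact Group.isSolvable_of_ker_le_range ((dg n F).toHomUnits.ker).subtype (dg n F).toHomUnits
    (by rw [Subgroup.range_subtype])

end H56.LG
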